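import Mathlib
import Pool.Agent.RO.C2

set_option autoImplicit false

/-!
# NP ∩ coNP relative to a random oracle and any other oracle: definitions

As in `Pool.Agent.RO.Defs`, but the procedures have the oracle `join A R`, where `A` is fixed and
`R` is random.
-/

namespace Pool.Agent.ROA

open Function N68a2faeb N793a5b8e N487b59b3 Pool.Agent.Helper22
open Pool.Agent.Helper20.Cons (join Po cRun)
open Pool.Agent.RO (Vp pads IsInst Sat lev HB Big)

/-- acceptance of the image of `u` under the reduction number `l` -/
def acc (V : Vp) (b : Bool) (A R : Oracle) (l : ℕ) (u : List Bool) : Prop :=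
  Accepts (V b).1 (V b).2 (join A R) (pads l u)

/-- the reduction number `l` to the language of the verifiers `V` fails for some instance -/
def Fail (V : Vp) (A R : Oracle) (s l : ℕ) : Prop :=
  ∃ u, IsInst s l u ∧
    (¬ (acc V true A R l u ↔ Sat R s l u) ∨ ¬ (acc V false A R l u ↔ ¬ Sat R s l u))

/-- the verifiers are not complementary on the image of some instance -/
def Inv (V : Vp) (A R : Oracle) (s l : ℕ) : Prop :=
  ∃ u, IsInst s l u ∧ (acc V true A R l u ↔ acc V false A R l u)

open Classical in
/-- the number of the levels less than `i` with a failure -/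
noncomputable def cnt (V : Vp) (S : ℕ) (A R : Oracle) : ℕ → ℕ
  | 0 => 0
  | i + 1 => cnt V S A R i + if Fail V A R (lev S i) (cnt V S A R i) then 1 else 0

/-- the new language: instances of the levels from `i₀` on -/
def Lng (V : Vp) (S i₀ : ℕ) (A R : Oracle) (z : List Bool) : Prop :=
  ∃ i, i₀ ≤ i ∧ IsInst (lev S i) (cnt V S A R i) z ∧ Sat R (lev S i) (cnt V S A R i) z

theorem join_congr {A R R' : Oracle} {h : ℕ}
    (hR : ∀ u : List Bool, u.length ≤ h → R u = R' u) (u : List Bool) (hu : u.length ≤ h) :
    join A R u = join A R' u := by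
  match u with
  | [] => rfl
  | false :: u => rfl
  | true :: u => exact hR u (by simp only [List.length_cons] at hu; omega)

private theorem acc_imp {V : Vp} {s l h : ℕ} (H : HB V s l h) {A R R' : Oracle}
    (hR : ∀ u : List Bool, u.length ≤ h → R u = R' u) {u : List Bool} (hu : IsInst s l u)
    (b : Bool) : acc V b A R l u → acc V b A R' l u := by
  rintro ⟨w, hw, hrun⟩
  refine ⟨w, hw, ?_⟩
  rw [← hrun]
  symm
  apply RO.run_congr
  intro q hq
  exact join_congr hR q (H.len u hu b (join A R) w hw q hq)

theorem acc_congr {V : Vp} {s l h : ℕ} (H : HB V s l h) {A R R' : Oracle}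
    (hR : ∀ u : List Bool, u.length ≤ h → R u = R' u) {u : List Bool} (hu : IsInst s l u)
    (b : Bool) : acc V b A R l u ↔ acc V b A R' l u :=
  ⟨acc_imp H hR hu b, acc_imp H (fun v hv => (hR v hv).symm) hu b⟩

theorem fail_congr {V : Vp} {s l h : ℕ} (H : HB V s l h) {A R R' : Oracle}
    (hR : ∀ u : List Bool, u.length ≤ h → R u = R' u) : Fail V A R s l ↔ Fail V A R' s l := by
  unfold Fail
  refine exists_congr fun u => and_congr_right fun hu => ?_
  rw [acc_congr H hR hu true, acc_congr H hR hu false, RO.sat_congr H hR hu]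

theorem inv_congr {V : Vp} {s l h : ℕ} (H : HB V s l h) {A R R' : Oracle}
    (hR : ∀ u : List Bool, u.length ≤ h → R u = R' u) : Inv V A R s l ↔ Inv V A R' s l := by
  unfold Inv
  refine exists_congr fun u => and_congr_right fun hu => ?_
  rw [acc_congr H hR hu true, acc_congr H hR hu false]

end Pool.Agent.ROA
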