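import Mathlib
import Pool.Agent.RO.Link
import Pool.Agent.ROA.Defs

set_option autoImplicit false

/-!
# The machines as predicates with certificates
-/

namespace Pool.Agent.ROA

open Pool.Agent.Helper22 N487b59b3
open Pool.Agent.Helper20.Cons (join Po cRun)
open Pool.Agent.RO (Vp pads IsInst Sat lev HB Big Cert jj code zer kap marks qs run_congr
  isInst_code exists_code_of_isInst sat_iff Fl Iv vx)

theorem cert_acc {V : Vp} {s l h : ℕ} (H : HB V s l h) (κ : ℕ) (A R : Oracle) (b : Bool) :
    Cert h (fun (x : Fin (jj l) ↪ List.Vector Bool s) (G : Finset (List.Vector Bool s)) =>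
      acc V b A (zer κ G R) l (code x)) := by
  classical
  intro x G hacc
  obtain ⟨w, hw, hrun⟩ := hacc
  set qq := qs (V b).1 (join A (zer κ G R)) (pads l (code x), w) with hqq
  have hlen : qq.length ≤ h := H.num (code x) (isInst_code x) b (join A (zer κ G R)) w hw
  refine ⟨Finset.univ.filter fun v : List.Vector Bool s => ∃ q ∈ qq, ∃ a, a < κ ∧
    q = true :: (v.1 ++ un a), ?_, ?_⟩
  · refine le_trans ?_ hlen
    have h1 : (Finset.univ.filter fun v : List.Vector Bool s =>
        ∃ q ∈ qq, ∃ a, a < κ ∧ q = true :: (v.1 ++ un a)).card ≤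
        (qq.toFinset.image fun q => q.tail.take s).card := by
      refine Finset.card_le_card_of_injOn (fun v => v.1) ?_ ?_
      · intro v hv
        obtain ⟨q, hq, a, -, he⟩ := (Finset.mem_filter.1 hv).2
        refine Finset.mem_coe.2 (Finset.mem_image.2 ⟨q, List.mem_toFinset.2 hq, ?_⟩)
        rw [he, List.tail_cons, List.take_left' v.2]
      · intro v _ v' _ he
        exact Subtype.ext he
    exact h1.trans (Finset.card_image_le.trans (List.toFinset_card_le qq))
  · intro G' hG'
    refine ⟨w, hw, ?_⟩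
    rw [← hrun]
    symm
    apply run_congr
    intro q hq
    match q, hq with
    | [], _ => rfl
    | false :: q, _ => rfl
    | true :: q, hq =>
      change zer κ G R q = zer κ G' R q
      have hiff : (∃ v ∈ G, ∃ a, a < κ ∧ q = v.1 ++ un a) ↔
          (∃ v ∈ G', ∃ a, a < κ ∧ q = v.1 ++ un a) := by
        constructor
        · rintro ⟨v, hv, a, ha, he⟩
          exact ⟨v, (hG' v (Finset.mem_filter.2 ⟨Finset.mem_univ v, _, hq, a, ha,
            by rw [he]⟩)).2 hv, a, ha, he⟩
        · rintro ⟨v, hv, a, ha, he⟩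
          exact ⟨v, (hG' v (Finset.mem_filter.2 ⟨Finset.mem_univ v, _, hq, a, ha,
            by rw [he]⟩)).1 hv, a, ha, he⟩
      unfold zer
      by_cases hc : ∃ v ∈ G, ∃ a, a < κ ∧ q = v.1 ++ un a
      · rw [if_pos hc, if_pos (hiff.1 hc)]
      · rw [if_neg hc, if_neg fun h' => hc (hiff.2 h')]

theorem fail_iff {V : Vp} {s l : ℕ} {A R : Oracle} (hR : marks R s (kap s l) = ∅)
    (G : Finset (List.Vector Bool s)) :
    Fail V A (zer (kap s l) G R) s l ↔
      Fl vx (fun (x : Fin (jj l) ↪ List.Vector Bool s) (G : Finset (List.Vector Bool s)) =>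
          acc V true A (zer (kap s l) G R) l (code x))
        (fun (x : Fin (jj l) ↪ List.Vector Bool s) (G : Finset (List.Vector Bool s)) =>
          acc V false A (zer (kap s l) G R) l (code x)) G := by
  constructor
  · rintro ⟨u, hu, h⟩
    obtain ⟨x, rfl⟩ := exists_code_of_isInst hu
    rw [sat_iff hR] at h
    exact ⟨x, h⟩
  · rintro ⟨x, h⟩
    rw [← sat_iff hR] at h
    exact ⟨code x, isInst_code x, h⟩

theorem inv_iff {V : Vp} {s l : ℕ} {A R : Oracle} (G : Finset (List.Vector Bool s)) :
    Inv V A (zer (kap s l) G R) s l ↔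
      Iv (fun (x : Fin (jj l) ↪ List.Vector Bool s) (G : Finset (List.Vector Bool s)) =>
          acc V true A (zer (kap s l) G R) l (code x))
        (fun (x : Fin (jj l) ↪ List.Vector Bool s) (G : Finset (List.Vector Bool s)) =>
          acc V false A (zer (kap s l) G R) l (code x)) G := by
  constructor
  · rintro ⟨u, hu, h⟩
    obtain ⟨x, rfl⟩ := exists_code_of_isInst hu
    exact ⟨x, h⟩
  · rintro ⟨x, h⟩
    exact ⟨code x, isInst_code x, h⟩

end Pool.Agent.ROA
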