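import Mathlib
import Pool.Agent.RO.CDefs
import Pool.Agent.ROA.Defs

set_option autoImplicit false

/-!
# Definitions for the machines (as in `Pool.Agent.RO`, with the oracle `join A R`)
-/

namespace Pool.Agent.ROA

open N68a2faeb N793a5b8e N487b59b3 Pool.Agent.Helper22
open Pool.Agent.Helper20.Cons (join Po cRun)
open Pool.Agent.RO hiding acc Fail Inv cnt Lng markB satB failB lstep look levB qY dY qN crtB dN

/-- `w` is a mark, `k` marks words in unary -/
def markB (T : List (List Bool)) (k w : List Bool) : Bool :=
  (uns k).all fun a => !wmem T (true :: (w ++ a))

/-- all words of some translate of `u` are marks -/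
def satB (r : List Bool) (T : List (List Bool)) (s l u : List Bool) : Bool :=
  (strs r).any fun y => leneq y s && (ld u).all fun x => markB T (kapU s l) (wx y x)

/-- failure of the reduction number `|l|` for the words of length `|s|` -/
def failB (V : Vp) (r : List Bool) (T : List (List Bool)) (s l : List Bool) : Bool :=
  (strs r).any fun u => instB s l u &&
    (!(accB V true r T l u == satB r T s l u) || (accB V false r T l u == satB r T s l u))

/-- one step: from the level and its number to the next level and its number -/
def lstep (V : Vp) (r : List Bool) (T : List (List Bool)) (p : List Bool × List Bool) :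
    List Bool × List Bool :=
  if decide ((nxtU p.1 r).length ≤ r.length) then
    (nxtU p.1 r, if failB V r T p.1 p.2 then true :: p.2 else p.2)
  else p

/-- the largest level which is at most `|r|`, and its number -/
def look (V : Vp) (S : ℕ) (r : List Bool) (T : List (List Bool)) : List Bool × List Bool :=
  (lstep V r T)^[r.length] (un S, [])

/-- `z` is an instance of a level `≥ i₀`, if `T` holds the positive answers for `strs (nz z)` -/
def levB (V : Vp) (S i₀ : ℕ) (z : List Bool) (T : List (List Bool)) : Bool :=
  (leneq (look V S (nz z) T).1 (nz z) && decide ((un (lev S i₀)).length ≤ (nz z).length)) &&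
    instB (look V S (nz z) T).1 (look V S (nz z) T).2 z

/-- the queries of the first verifier -/
def qY (a : List Bool × List Bool) : List (List Bool) :=
  strs (nz a.1) ++ (ld a.1).flatMap fun x => (uns (nz a.1)).map fun t => true :: (wx a.2 x ++ t)

/-- the output of the first verifier, from the list of the queries which are in the oracle -/
def dY (V : Vp) (S i₀ : ℕ) (c : (List Bool × List Bool) × List (List Bool)) : Bool :=
  levB V S i₀ c.1.1 c.2 && (leneq c.1.2 (nz c.1.1) && (ld c.1.1).all fun x =>
    markB c.2 (kapU (nz c.1.1) (look V S (nz c.1.1) c.2).2) (wx c.1.2 x))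

/-- the queries of the second verifier; the witness codes two lists of words -/
def qN (a : List Bool × List Bool) : List (List Bool) :=
  strs (nz a.1) ++ (ld (cf a.2) ++ ld (cs a.2)).flatMap fun e => (uns (nz a.1)).map fun t => true :: (e ++ t)

/-- the certificate of the second verifier, `s` and `l` in unary -/
def crtB (T : List (List Bool)) (s l u : List Bool) (E F : List (List Bool)) : Bool :=
  ((nodupB E && leneq (un E.length ++ powU (un 4) l u) (powU (un 8) l (un (u.length * u.length)))) &&
    ((E.all fun e => leneq e s && markB T (kapU s l) e) &&
      (F.all fun f => !markB T (kapU s l) f))) &&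
    (E.all fun e => (ld u).all fun x => (ld u).any fun x' => wmem F (wx (wx e x) x'))

/-- the output of the second verifier -/
def dN (V : Vp) (S i₀ : ℕ) (c : (List Bool × List Bool) × List (List Bool)) : Bool :=
  !levB V S i₀ c.1.1 c.2 ||
    crtB c.2 (nz c.1.1) (look V S (nz c.1.1) c.2).2 c.1.1 (ld (cf c.1.2)) (ld (cs c.1.2))

end Pool.Agent.ROA
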