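import Mathlib
import Pool.Agent.RO.CLev
import Pool.Agent.ROA.CDefs

set_option autoImplicit false

/-!
# The bounded versions are correct (as in `Pool.Agent.RO`, with the oracle `join A R`)
-/

namespace Pool.Agent.ROA

open N68a2faeb N793a5b8e N487b59b3 Pool.Agent.Helper22
open Pool.Agent.Helper20.Cons (join Po cRun)
open Pool.Agent.RO hiding acc Fail Inv cnt Lng markB satB failB lstep look levB qY dY qN crtB dN markB_iff satB_iff accB_iff failB_iff cnt_le_i look_eq look_lt look_of_inst levB_iff level_unique

theorem markB_iff {T : List (List Bool)} {R : Oracle} {k w : List Bool}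
    (hT : ∀ a < k.length, wmem T (true :: (w ++ un a)) = R (w ++ un a)) :
    markB T k w = true ↔ Mark R k.length w := by
  rw [markB, List.all_eq_true, Mark]
  constructor
  · intro h a ha
    have h1 := h (un a) (mem_uns.2 ⟨a, ha, rfl⟩)
    rw [hT a ha] at h1
    simpa using h1
  · intro h x hx
    obtain ⟨a, ha, rfl⟩ := mem_uns.1 hx
    rw [hT a ha, h a ha]
    rfl

theorem satB_iff {r : List Bool} {T : List (List Bool)} {A R : Oracle} {s l u : List Bool} {h : ℕ}
    (h2 : 2 * s.length ≤ h) (hr : 2 ^ (h + 1) ≤ r.length)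
    (hT : ∀ w : List Bool, w.length ≤ h → wmem T w = join A R w)
    (hu : IsInst s.length l.length u) :
    satB r T s l u = true ↔ Sat R s.length l.length u := by
  have key : ∀ y : List Bool, y.length = s.length → ∀ x ∈ ld u,
      (markB T (kapU s l) (wx y x) = true ↔ Mark R (kap s.length l.length) (wx y x)) := by
    intro y hy x hx
    have h3 : (wx y x).length = s.length := by
      rw [wx, List.length_zipWith, hy, hu.2.2.2 x hx, min_self]
    rw [← kapU_length]
    refine markB_iff fun a ha => hT (true :: (wx y x ++ un a)) ?_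
    rw [kapU_length, kap] at ha
    rw [List.length_cons, List.length_append, un_length, h3]
    omega
  rw [satB, List.any_eq_true, Sat]
  constructor
  · rintro ⟨y, -, hy⟩
    rw [Bool.and_eq_true, leneq_iff, List.all_eq_true] at hy
    exact ⟨y, hy.1, fun x hx => (key y hy.1 x hx).1 (hy.2 x hx)⟩
  · rintro ⟨y, hy1, hy2⟩
    refine ⟨y, Hrd.mem_strs_of_length (le_trans ?_ hr), ?_⟩
    · exact Nat.pow_le_pow_right (by norm_num) (by omega)
    · rw [Bool.and_eq_true, leneq_iff, List.all_eq_true]
      exact ⟨hy1, fun x hx => (key y hy1 x hx).2 (hy2 x hx)⟩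

theorem accB_iff {V : Vp} {b : Bool} {r : List Bool} {T : List (List Bool)} {A R : Oracle}
    {s h : ℕ} {l u : List Bool} (hb : HB V s l.length h) (hr : 2 ^ (h + 1) ≤ r.length)
    (hT : ∀ w : List Bool, w.length ≤ h → wmem T w = join A R w) (hu : IsInst s l.length u) :
    accB V b r T l u = true ↔ acc V b A R l.length u := by
  have h0 : h < 2 ^ (h + 1) := lt_trans (Nat.lt_succ_self h) Nat.lt_two_pow_self
  have h1 : padB l u r = pads l.length u := padB_eq (by
    have := hb.pad u hu
    omega)
  have key : ∀ w : List Bool, w.length ≤ (V b).2.eval (pads l.length u).length →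
      (V b).1.run (wmem T) (pads l.length u, w) = (V b).1.run (join A R) (pads l.length u, w) := by
    intro w hw
    exact run_congr _ fun q hq => hT q (hb.len u hu b (wmem T) w hw q hq)
  rw [accB, h1, List.any_eq_true, acc, Accepts]
  constructor
  · rintro ⟨w, -, hw⟩
    rw [Bool.and_eq_true, decide_eq_true_eq, un_length] at hw
    exact ⟨w, hw.1, by rw [← key w hw.1]; exact hw.2⟩
  · rintro ⟨w, hw1, hw2⟩
    refine ⟨w, Hrd.mem_strs_of_length (le_trans ?_ hr), ?_⟩
    · have := hb.wit u hu b
      exact Nat.pow_le_pow_right (by norm_num) (by omega)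
    · rw [Bool.and_eq_true, decide_eq_true_eq, un_length]
      exact ⟨hw1, by rw [key w hw1]; exact hw2⟩



theorem failB_iff {V : Vp} {r : List Bool} {T : List (List Bool)} {A R : Oracle}
    {h : ℕ} {s l : List Bool} (hb : HB V s.length l.length h) (hr : 2 ^ (h + 1) ≤ r.length)
    (hT : ∀ w : List Bool, w.length ≤ h → wmem T w = join A R w) :
    failB V r T s l = true ↔ Fail V A R s.length l.length := by
  have key : ∀ u, IsInst s.length l.length u →
      ((!(accB V true r T l u == satB r T s l u) || (accB V false r T l u == satB r T s l u)) =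
        true ↔ (¬ (acc V true A R l.length u ↔ Sat R s.length l.length u) ∨
        ¬ (acc V false A R l.length u ↔ ¬ Sat R s.length l.length u))) := by
    intro u hu
    rw [← accB_iff hb hr hT hu, ← accB_iff hb hr hT hu, ← satB_iff hb.two hr hT hu]
    cases accB V true r T l u <;> cases accB V false r T l u <;> cases satB r T s l u <;> simp
  rw [failB, List.any_eq_true, Fail]
  constructor
  · rintro ⟨u, -, hu⟩
    rw [Bool.and_eq_true, instB_iff] at hu
    exact ⟨u, hu.1, (key u hu.1).1 hu.2⟩
  · rintro ⟨u, hu1, hu2⟩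
    refine ⟨u, Hrd.mem_strs_of_length (le_trans ?_ hr), ?_⟩
    · have := hb.inst u hu1
      exact Nat.pow_le_pow_right (by norm_num) (by omega)
    · rw [Bool.and_eq_true, instB_iff]
      exact ⟨hu1, (key u hu1).2 hu2⟩

theorem cnt_le_i (V : Vp) (S : ℕ) (A R : Oracle) (i : ℕ) : cnt V S A R i ≤ i := by
  induction i with
  | zero => exact le_rfl
  | succ i ih =>
    rw [cnt]
    split_ifs <;> omega



private theorem nxtU_eq (s r : List Bool) :
    nxtU s r = un (min (2 ^ (min (2 ^ s.length) (r.length + 1))) (r.length + 1)) := by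
  rw [nxtU, pw_eq, pw_eq, un_length]
  rfl

private theorem nxtU_small {s r : List Bool} (h : 2 ^ 2 ^ s.length ≤ r.length) :
    nxtU s r = un (2 ^ 2 ^ s.length) := by
  have h1 : 2 ^ s.length < 2 ^ 2 ^ s.length := Nat.lt_two_pow_self
  rw [nxtU_eq, min_eq_left (show 2 ^ s.length ≤ r.length + 1 by omega),
    min_eq_left (show 2 ^ 2 ^ s.length ≤ r.length + 1 by omega)]

private theorem nxtU_large {s r : List Bool} (h : r.length < 2 ^ 2 ^ s.length) :
    r.length < (nxtU s r).length := by
  have h1 : r.length + 1 < 2 ^ (r.length + 1) := Nat.lt_two_pow_self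
  rw [nxtU_eq, un_length]
  rcases le_total (2 ^ s.length) (r.length + 1) with h2 | h2
  · rw [min_eq_left h2]
    exact lt_min h (Nat.lt_succ_self _)
  · rw [min_eq_right h2]
    exact lt_min (by omega) (Nat.lt_succ_self _)

private theorem lstep_fix {V : Vp} {r : List Bool} {T : List (List Bool)}
    {p : List Bool × List Bool} (h : r.length < 2 ^ 2 ^ p.1.length) : lstep V r T p = p := by
  have h1 := nxtU_large h
  rw [lstep, if_neg]
  rw [decide_eq_true_eq]
  omega

private theorem look_iter {V : Vp} {S : ℕ} (hV : Big V S) {A R : Oracle} {r : List Bool}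
    {T : List (List Bool)} (hT : ∀ w ∈ strs r, wmem T w = join A R w) (m : ℕ)
    (h1 : lev S m ≤ r.length) :
    (lstep V r T)^[m] (un S, []) = (un (lev S m), un (cnt V S A R m)) := by
  induction m with
  | zero => rfl
  | succ m ih =>
    have h2 : lev S m < lev S (m + 1) := lvl_mono S (Nat.lt_succ_self m)
    rw [Function.iterate_succ_apply', ih (by omega)]
    obtain ⟨h, hb, hh⟩ := hV m (cnt V S A R m) (cnt_le_i V S A R m)
    have h3 : h + 1 ≤ 2 ^ lev S m := by
      refine le_trans (Nat.le_mul_of_pos_left _ (by positivity)) hh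
    have h4 : 2 ^ (h + 1) ≤ r.length :=
      le_trans (Nat.pow_le_pow_right (by norm_num) h3) h1
    have h5 : ∀ w : List Bool, w.length ≤ h → wmem T w = join A R w := by
      intro w hw
      refine hT w (Hrd.mem_strs_of_length (le_trans ?_ h4))
      exact Nat.pow_le_pow_right (by norm_num) (by omega)
    have h6 : nxtU (un (lev S m)) r = un (lev S (m + 1)) := by
      rw [nxtU_small (by rw [un_length]; exact h1), un_length]
      rfl
    have h7 : failB V r T (un (lev S m)) (un (cnt V S A R m)) = true ↔
        Fail V A R (lev S m) (cnt V S A R m) := by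
      have := failB_iff (V := V) (r := r) (T := T) (A := A) (R := R) (h := h) (s := un (lev S m))
        (l := un (cnt V S A R m)) (by rw [un_length, un_length]; exact hb) h4 h5
      rwa [un_length, un_length] at this
    rw [lstep, if_pos (by
      rw [decide_eq_true_eq]
      show (nxtU (un (lev S m)) r).length ≤ r.length
      rw [h6, un_length]; exact h1)]
    show (nxtU (un (lev S m)) r, _) = _
    rw [h6, Prod.mk.injEq]
    refine ⟨rfl, ?_⟩
    rw [cnt]
    by_cases hf : Fail V A R (lev S m) (cnt V S A R m)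
    · rw [if_pos (h7.2 hf), if_pos hf]
      rfl
    · rw [if_neg (fun h => hf (h7.1 h)), if_neg hf]
      rfl

theorem look_eq {V : Vp} {S : ℕ} (hV : Big V S) {A R : Oracle} {r : List Bool}
    {T : List (List Bool)} (hT : ∀ w ∈ strs r, wmem T w = join A R w) {i : ℕ}
    (h1 : lev S i ≤ r.length) (h2 : r.length < lev S (i + 1)) :
    look V S r T = (un (lev S i), un (cnt V S A R i)) := by
  have h3 : i ≤ lev S i := (lvl_mono S).le_apply
  obtain ⟨k, hk⟩ : ∃ k, r.length = k + i := ⟨r.length - i, by omega⟩
  rw [look, hk, Function.iterate_add_apply, look_iter hV hT i h1]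
  exact Function.iterate_fixed (lstep_fix (by
    show r.length < 2 ^ 2 ^ (un (lev S i)).length
    rw [un_length]; exact h2)) k

theorem look_lt {V : Vp} {S : ℕ} {r : List Bool} {T : List (List Bool)} (h : r.length < S) :
    look V S r T = (un S, []) := by
  rw [look]
  refine Function.iterate_fixed (lstep_fix ?_) _
  show r.length < 2 ^ 2 ^ (un S).length
  rw [un_length]
  exact h.trans (lt_of_lt_of_le Nat.lt_two_pow_self
    (Nat.pow_le_pow_right (by norm_num) (Nat.lt_two_pow_self (n := S)).le))

theorem look_of_inst {V : Vp} {S : ℕ} (hV : Big V S) {A R : Oracle} {z : List Bool}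
    {T : List (List Bool)} (hT : ∀ w ∈ strs (nz z), wmem T w = join A R w) {i : ℕ}
    (hz : IsInst (lev S i) (cnt V S A R i) z) :
    look V S (nz z) T = (un (lev S i), un (cnt V S A R i)) := by
  refine look_eq hV hT ?_ ?_
  · rw [nz_eq hz, un_length]
  · rw [nz_eq hz, un_length]
    exact lvl_mono S (Nat.lt_succ_self i)

private theorem exists_lvl {S n : ℕ} (h : S ≤ n) : ∃ i, lev S i ≤ n ∧ n < lev S (i + 1) := by
  classical
  have h1 : ∃ i, n < lev S (i + 1) :=
    ⟨n, lt_of_lt_of_le (Nat.lt_succ_self n) ((lvl_mono S).le_apply (x := n + 1))⟩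
  refine ⟨Nat.find h1, ?_, Nat.find_spec h1⟩
  rcases h2 : Nat.find h1 with _ | k
  · exact h
  · have h3 := Nat.find_min h1 (m := k) (by omega)
    omega

theorem levB_iff {V : Vp} {S : ℕ} (hV : Big V S) (i₀ : ℕ) {A R : Oracle} {z : List Bool}
    {T : List (List Bool)} (hT : ∀ w ∈ strs (nz z), wmem T w = join A R w) :
    levB V S i₀ z T = true ↔ ∃ i, i₀ ≤ i ∧ IsInst (lev S i) (cnt V S A R i) z := by
  constructor
  · intro h
    rw [levB, Bool.and_eq_true, Bool.and_eq_true, leneq_iff, decide_eq_true_eq, un_length,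
      instB_iff] at h
    obtain ⟨⟨h1, h2⟩, h3⟩ := h
    by_cases hS : S ≤ (nz z).length
    · obtain ⟨i, hi1, hi2⟩ := exists_lvl hS
      rw [look_eq hV hT hi1 hi2] at h1 h3
      rw [un_length] at h1 h3
      rw [un_length] at h3
      refine ⟨i, ?_, h3⟩
      rw [← h1] at h2
      exact (lvl_mono S).le_iff_le.1 h2
    · rw [look_lt (by omega), un_length] at h1
      omega
  · rintro ⟨i, hi, hz⟩
    have h1 := look_of_inst hV hT hz
    rw [levB, h1, Bool.and_eq_true, Bool.and_eq_true, leneq_iff, decide_eq_true_eq, un_length,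
      instB_iff, un_length, un_length, nz_eq hz, un_length]
    refine ⟨⟨rfl, (lvl_mono S).monotone hi⟩, ?_⟩
    rw [un_length]
    exact hz

/-- the level of an instance is unique -/
theorem level_unique {V : Vp} {S : ℕ} {A R : Oracle} {z : List Bool} {i i' : ℕ}
    (h : IsInst (lev S i) (cnt V S A R i) z) (h' : IsInst (lev S i') (cnt V S A R i') z) :
    i = i' := by
  have h1 := (nz_eq h).symm.trans (nz_eq h')
  have h2 := congrArg List.length h1
  rw [un_length, un_length] at h2
  exact (lvl_mono S).injective h2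

end Pool.Agent.ROA
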