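import Mathlib
import Pool.Agent.RO.CFpC
import Pool.Agent.ROA.CDefs

set_option autoImplicit false

/-!
# The bounded versions are computable in polynomial time (as in `Pool.Agent.RO`, with the oracle `join A R`)
-/

namespace Pool.Agent.ROA

open N68a2faeb N793a5b8e N487b59b3 Pool.Agent.Helper22
open Pool.Agent.Helper20.Cons (join Po cRun)
open Pool.Agent.RO hiding acc Fail Inv cnt Lng markB satB failB lstep look levB qY dY qN crtB dN markB_FP satB_FP failB_FP lstep_FP look_FP levB_FP

theorem markB_FP : FP fun p : List (List Bool) × (List Bool × List Bool) =>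
    markB p.1 p.2.1 p.2.2 := by
  have h1 : FP fun p : (List (List Bool) × List Bool) × List Bool =>
      !wmem p.1.1 (true :: (p.1.2 ++ p.2)) := by
    have h0 : FP fun p : (List (List Bool) × List Bool) × List Bool =>
        true :: (p.1.2 ++ p.2) := (FP.const true).cons (by fun_prop)
    fun_prop
  have h2 := FP.all_ctx h1
  exact h2.comp (f := fun p : List (List Bool) × (List Bool × List Bool) =>
    ((p.1, p.2.2), uns p.2.1)) (by fun_prop)

theorem satB_FP : FP fun p : List Bool × (List (List Bool) × (List Bool ×
    (List Bool × List Bool))) => satB p.1 p.2.1 p.2.2.1 p.2.2.2.1 p.2.2.2.2 := by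
  -- context: `((T, (s, l)), y)` and the element `x`
  have h1 : FP fun p : ((List (List Bool) × (List Bool × List Bool)) × List Bool) × List Bool =>
      markB p.1.1.1 (kapU p.1.1.2.1 p.1.1.2.2) (wx p.1.2 p.2) := by
    have e1 : FP fun p : ((List (List Bool) × (List Bool × List Bool)) × List Bool) × List Bool =>
        kapU p.1.1.2.1 p.1.1.2.2 := kapU_FP.comp (f := fun p : ((List (List Bool) ×
          (List Bool × List Bool)) × List Bool) × List Bool => (p.1.1.2.1, p.1.1.2.2))
        (by fun_prop)
    exact markB_FP.comp (f := fun p : ((List (List Bool) × (List Bool × List Bool)) ×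
      List Bool) × List Bool => (p.1.1.1, (kapU p.1.1.2.1 p.1.1.2.2, wx p.1.2 p.2)))
      (FP.pair (by fun_prop) (FP.pair e1 (by fun_prop)))
  have h2 := FP.all_ctx h1
  -- context `((T, (s, l)), u)` and the element `y`
  have h3 : FP fun p : ((List (List Bool) × (List Bool × List Bool)) × List Bool) × List Bool =>
      leneq p.2 p.1.1.2.1 && (ld p.1.2).all fun x =>
        markB p.1.1.1 (kapU p.1.1.2.1 p.1.1.2.2) (wx p.2 x) := by
    refine FP.and (by fun_prop) ?_
    exact h2.comp (f := fun p : ((List (List Bool) × (List Bool × List Bool)) × List Bool) ×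
      List Bool => ((p.1.1, p.2), ld p.1.2)) (by fun_prop)
  have h4 := FP.any_ctx h3
  unfold satB
  exact h4.comp (f := fun p : List Bool × (List (List Bool) × (List Bool ×
    (List Bool × List Bool))) => (((p.2.1, (p.2.2.1, p.2.2.2.1)), p.2.2.2.2), strs p.1))
    (by fun_prop)

theorem failB_FP (V : Vp) : FP fun p : List Bool × (List (List Bool) ×
    (List Bool × List Bool)) => failB V p.1 p.2.1 p.2.2.1 p.2.2.2 := by
  -- context `(r, (T, (s, l)))`, element `u`
  have e1 : FP fun p : (List Bool × (List (List Bool) × (List Bool × List Bool))) × List Bool =>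
      instB p.1.2.2.1 p.1.2.2.2 p.2 :=
    instB_FP.comp (f := fun p : (List Bool × (List (List Bool) × (List Bool × List Bool))) ×
      List Bool => (p.1.2.2.1, (p.1.2.2.2, p.2))) (by fun_prop)
  have e2 : ∀ b, FP fun p : (List Bool × (List (List Bool) × (List Bool × List Bool))) ×
      List Bool => accB V b p.1.1 p.1.2.1 p.1.2.2.2 p.2 := fun b =>
    (accB_FP V b).comp (f := fun p : (List Bool × (List (List Bool) × (List Bool × List Bool))) ×
      List Bool => (p.1.1, (p.1.2.1, (p.1.2.2.2, p.2)))) (by fun_prop)
  have e3 : FP fun p : (List Bool × (List (List Bool) × (List Bool × List Bool))) × List Bool =>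
      satB p.1.1 p.1.2.1 p.1.2.2.1 p.1.2.2.2 p.2 :=
    satB_FP.comp (f := fun p : (List Bool × (List (List Bool) × (List Bool × List Bool))) ×
      List Bool => (p.1.1, (p.1.2.1, (p.1.2.2.1, (p.1.2.2.2, p.2))))) (by fun_prop)
  have h1 := FP.any_ctx (e1.and ((((e2 true).beq e3).not).or ((e2 false).beq e3)))
  unfold failB
  exact h1.comp (f := fun p : List Bool × (List (List Bool) × (List Bool × List Bool)) =>
    (p, strs p.1)) (by fun_prop)



theorem lstep_FP (V : Vp) : FP fun p : List Bool × (List (List Bool) × (List Bool × List Bool)) =>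
    lstep V p.1 p.2.1 p.2.2 := by
  have e1 : FP fun p : List Bool × (List (List Bool) × (List Bool × List Bool)) =>
      nxtU p.2.2.1 p.1 := by
    unfold nxtU
    have h1 : FP fun p : List Bool × (List (List Bool) × (List Bool × List Bool)) =>
        ([true, true] : List Bool) := FP.const _
    fun_prop
  have e2 := failB_FP V
  have e3 : FP fun p : List Bool × (List (List Bool) × (List Bool × List Bool)) =>
      if failB V p.1 p.2.1 p.2.2.1 p.2.2.2 then true :: p.2.2.2 else p.2.2.2 :=
    FP.ite e2 ((FP.const true).cons (by fun_prop)) (by fun_prop)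
  unfold lstep
  exact FP.ite (FP.length_le e1 FP.fst) (e1.pair e3) (by fun_prop)

/-- the step with its context -/
private def cstep (V : Vp) (p : List Bool × (List (List Bool) × (List Bool × List Bool))) :
    List Bool × (List (List Bool) × (List Bool × List Bool)) :=
  (p.1, (p.2.1, lstep V p.1 p.2.1 p.2.2))

private theorem cstep_iter (V : Vp) (r : List Bool) (T : List (List Bool))
    (q : List Bool × List Bool) (i : ℕ) :
    (cstep V)^[i] (r, (T, q)) = (r, (T, (lstep V r T)^[i] q)) := by
  induction i with
  | zero => rfl
  | succ i ih => rw [Function.iterate_succ_apply', ih, Function.iterate_succ_apply']; rfl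

private theorem lstep_len (V : Vp) (r : List Bool) (T : List (List Bool))
    (q : List Bool × List Bool) (i : ℕ) :
    ((lstep V r T)^[i] q).1.length ≤ q.1.length + r.length ∧
      ((lstep V r T)^[i] q).2.length ≤ q.2.length + i := by
  induction i with
  | zero => simp
  | succ i ih =>
    rw [Function.iterate_succ_apply']
    obtain ⟨h1, h2⟩ := ih
    generalize (lstep V r T)^[i] q = p at h1 h2
    rw [lstep]
    split_ifs with h3 h4
    · rw [decide_eq_true_eq] at h3
      exact ⟨by simp only; omega, by simp only [List.length_cons]; omega⟩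
    · rw [decide_eq_true_eq] at h3
      exact ⟨by simp only; omega, by simp only; omega⟩
    · exact ⟨h1, by omega⟩

theorem look_FP (V : Vp) (S : ℕ) : FP fun p : List Bool × List (List Bool) =>
    look V S p.1 p.2 := by
  have h1 : FP fun p : List Bool × (List Bool × (List (List Bool) × (List Bool × List Bool))) =>
      (cstep V)^[p.1.length] p.2 := by
    refine FP.iterate (f := cstep V) ?_ (B := fun n => 20 * n) (by fun_prop) ?_
    · unfold cstep
      exact FP.fst.pair (FP.pair (by fun_prop) (lstep_FP V))
    · rintro l ⟨r, T, q⟩ i hi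
      rw [cstep_iter]
      obtain ⟨h2, h3⟩ := lstep_len V r T q i
      have h4 := length_le_sz l
      rcases hq : (lstep V r T)^[i] q with ⟨a, b⟩
      rw [hq] at h2 h3
      obtain ⟨q1, q2⟩ := q
      simp only [sz_pair, sz_bits] at *
      omega
  have h2 := h1.comp (f := fun p : List Bool × List (List Bool) =>
    (p.1, (p.1, (p.2, (un S, ([] : List Bool)))))) (FP.pair (by fun_prop) (FP.pair (by fun_prop)
      (FP.pair (by fun_prop) (FP.const _))))
  refine (congrArg FP (funext fun p => ?_)).mp h2.snd'.snd'
  rw [cstep_iter]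
  rfl

private theorem lookz_FP (V : Vp) (S : ℕ) : FP fun p : List Bool × List (List Bool) => look V S (nz p.1) p.2 := by
  have e0 : FP fun p : List Bool × List (List Bool) => nz p.1 := nz_FP.comp FP.fst
  have e1 : FP fun p : List Bool × List (List Bool) => (nz p.1, p.2) := e0.pair FP.snd
  have e2 := FP.comp (look_FP V S) e1
  exact e2
private theorem len_FP (n : ℕ) : FP fun p : List Bool × List (List Bool) =>
      decide ((un n).length ≤ (nz p.1).length) := by
  have e0 : FP fun p : List Bool × List (List Bool) => nz p.1 := nz_FP.comp FP.fst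
  exact FP.length_le (FP.const _) e0
private theorem leq_FP (V : Vp) (S : ℕ) : FP fun p : List Bool × List (List Bool) =>
      leneq (look V S (nz p.1) p.2).1 (nz p.1) := by
  have e0 : FP fun p : List Bool × List (List Bool) => nz p.1 := nz_FP.comp FP.fst
  exact FP.leneq (lookz_FP V S).fst' e0
private theorem insz_FP (V : Vp) (S : ℕ) : FP fun p : List Bool × List (List Bool) =>
      instB (look V S (nz p.1) p.2).1 (look V S (nz p.1) p.2).2 p.1 := by
    have e1 := lookz_FP V S
    exact instB_FP.comp (f := fun p : List Bool × List (List Bool) =>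
      ((look V S (nz p.1) p.2).1, ((look V S (nz p.1) p.2).2, p.1)))
      (e1.fst'.pair (e1.snd'.pair FP.fst))
theorem levB_FP (V : Vp) (S i₀ : ℕ) : FP fun p : List Bool × List (List Bool) =>
    levB V S i₀ p.1 p.2 := ((leq_FP V S).and (len_FP (lev S i₀))).and (insz_FP V S)
end Pool.Agent.ROA
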