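import Mathlib
import Pool.Agent.RO.CYes
import Pool.Agent.ROA.CA
import Pool.Agent.ROA.CB

set_option autoImplicit false

/-!
# The new language is in NP (as in `Pool.Agent.RO`, with the oracle `join A R`)
-/

namespace Pool.Agent.ROA

open N68a2faeb N793a5b8e N487b59b3 Pool.Agent.Helper22
open Pool.Agent.Helper20.Cons (join Po cRun)
open Pool.Agent.RO hiding acc Fail Inv cnt Lng markB satB failB lstep look levB qY dY qN crtB dN markB_iff satB_iff accB_iff failB_iff cnt_le_i look_eq look_lt look_of_inst levB_iff level_unique markB_FP satB_FP failB_FP lstep_FP look_FP levB_FP qY_FP dY_FP np_side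



theorem qY_FP : FP qY := by
  have h1 : FP fun p : ((List Bool × List Bool) × List Bool) × List Bool =>
      true :: (wx p.1.1.2 p.1.2 ++ p.2) := (FP.const true).cons (by fun_prop)
  have h2 := FP.map_ctx h1
  have h3 : FP fun p : (List Bool × List Bool) × List Bool =>
      (uns (nz p.1.1)).map fun t => true :: (wx p.1.2 p.2 ++ t) := by
    have e1 : FP fun p : (List Bool × List Bool) × List Bool => nz p.1.1 :=
      nz_FP.comp (f := fun p : (List Bool × List Bool) × List Bool => p.1.1) (by fun_prop)
    exact h2.comp (FP.id.pair (FP.uns e1))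
  have h4 := FP.flatMap_ctx h3
  have h5 : FP fun a : List Bool × List Bool => (ld a.1).flatMap fun x =>
      (uns (nz a.1)).map fun t => true :: (wx a.2 x ++ t) :=
    h4.comp (FP.id.pair (FP.ld FP.fst))
  have h6 : FP fun a : List Bool × List Bool => nz a.1 := nz_FP.comp FP.fst
  exact FP.append (FP.strs h6) h5

private theorem d0 : FP fun c : (List Bool × List Bool) × List (List Bool) => nz c.1.1 :=
  nz_FP.comp (f := fun c : (List Bool × List Bool) × List (List Bool) => c.1.1) (by fun_prop)

private theorem d1 (V : Vp) (S i₀ : ℕ) :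
    FP fun c : (List Bool × List Bool) × List (List Bool) => levB V S i₀ c.1.1 c.2 :=
  (levB_FP V S i₀).comp (f := fun c : (List Bool × List Bool) × List (List Bool) =>
    (c.1.1, c.2)) (by fun_prop)

private theorem d3 (V : Vp) (S : ℕ) :
    FP fun c : (List Bool × List Bool) × List (List Bool) => look V S (nz c.1.1) c.2 :=
  (look_FP V S).comp (f := fun c : (List Bool × List Bool) × List (List Bool) =>
    (nz c.1.1, c.2)) (d0.pair FP.snd)

private theorem d4 (V : Vp) (S : ℕ) :
    FP fun c : (List Bool × List Bool) × List (List Bool) =>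
      kapU (nz c.1.1) (look V S (nz c.1.1) c.2).2 :=
  kapU_FP.comp (f := fun c : (List Bool × List Bool) × List (List Bool) =>
    (nz c.1.1, (look V S (nz c.1.1) c.2).2)) (d0.pair (d3 V S).snd')

private theorem d5 (V : Vp) (S : ℕ) :
    FP fun p : ((List Bool × List Bool) × List (List Bool)) × List Bool =>
      markB p.1.2 (kapU (nz p.1.1.1) (look V S (nz p.1.1.1) p.1.2).2) (wx p.1.1.2 p.2) := by
  have e1 : FP fun p : ((List Bool × List Bool) × List (List Bool)) × List Bool =>
      kapU (nz p.1.1.1) (look V S (nz p.1.1.1) p.1.2).2 :=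
    (d4 V S).comp (f := fun p : ((List Bool × List Bool) × List (List Bool)) × List Bool =>
      p.1) FP.fst
  have e2 : FP fun p : ((List Bool × List Bool) × List (List Bool)) × List Bool =>
      p.1.2 := by fun_prop
  have e3 : FP fun p : ((List Bool × List Bool) × List (List Bool)) × List Bool =>
      wx p.1.1.2 p.2 := by fun_prop
  exact markB_FP.comp (f := fun p : ((List Bool × List Bool) × List (List Bool)) × List Bool =>
    (p.1.2, (kapU (nz p.1.1.1) (look V S (nz p.1.1.1) p.1.2).2, wx p.1.1.2 p.2)))
    (e2.pair (e1.pair e3))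

private theorem d7 (V : Vp) (S : ℕ) :
    FP fun c : (List Bool × List Bool) × List (List Bool) =>
      (ld c.1.1).all fun x =>
        markB c.2 (kapU (nz c.1.1) (look V S (nz c.1.1) c.2).2) (wx c.1.2 x) := by
  have e1 : FP fun c : (List Bool × List Bool) × List (List Bool) => ld c.1.1 := by fun_prop
  exact (FP.all_ctx (d5 V S)).comp (f := fun c : (List Bool × List Bool) × List (List Bool) =>
    (c, ld c.1.1)) (FP.id.pair e1)

private theorem d2 : FP fun c : (List Bool × List Bool) × List (List Bool) =>
    leneq c.1.2 (nz c.1.1) := FP.leneq (by fun_prop) d0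

theorem dY_FP (V : Vp) (S i₀ : ℕ) : FP (dY V S i₀) := by
  have h := (d1 V S i₀).and (d2.and (d7 V S))
  exact h

private theorem length_le_lc {l : List (List Bool)} {x : List Bool} (hx : x ∈ l) :
    x.length ≤ (lc l).length := by
  induction l with
  | nil => exact absurd hx List.not_mem_nil
  | cons y l ih =>
    have h : lc (y :: l) = cd y (lc l) := rfl
    rw [h, cd_length]
    rcases List.mem_cons.1 hx with rfl | h1
    · omega
    · have := ih h1
      omega

private theorem dY_iff {V : Vp} {S : ℕ} (hV : Big V S) (i₀ : ℕ) (A R : Oracle)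
    (z y : List Bool) :
    dY V S i₀ ((z, y), (qY (z, y)).filter fun q => join A R q) = true ↔
      ∃ i, i₀ ≤ i ∧ IsInst (lev S i) (cnt V S A R i) z ∧ y.length = lev S i ∧
        ∀ x ∈ ld z, Mark R (kap (lev S i) (cnt V S A R i)) (wx y x) := by
  set T := (qY (z, y)).filter fun q => join A R q with hT
  have hT1 : ∀ w ∈ strs (nz z), wmem T w = join A R w := by
    intro w hw
    exact wmem_filter (List.mem_append_left _ hw)
  have hT2 : ∀ x ∈ ld z, ∀ a < (nz z).length, wmem T (true :: (wx y x ++ un a)) = R (wx y x ++ un a) := by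
    intro x hx a ha
    refine wmem_filter (R := join A R) (q := true :: (wx y x ++ un a)) (List.mem_append_right _ ?_)
    rw [List.mem_flatMap]
    refine ⟨x, hx, ?_⟩
    rw [List.mem_map]
    exact ⟨un a, mem_uns.2 ⟨a, ha, rfl⟩, rfl⟩
  have hmark : ∀ i, IsInst (lev S i) (cnt V S A R i) z → ∀ x ∈ ld z,
      (markB T (kapU (nz z) (look V S (nz z) T).2) (wx y x) = true ↔
        Mark R (kap (lev S i) (cnt V S A R i)) (wx y x)) := by
    intro i hi x hx
    have e1 : (kapU (nz z) (look V S (nz z) T).2).length =
        kap (lev S i) (cnt V S A R i) := by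
      rw [look_of_inst hV hT1 hi, kapU_length, nz_eq hi, un_length, un_length]
    have e2 : (nz z).length = lev S i := by rw [nz_eq hi, un_length]
    rw [markB_iff (R := R), e1]
    intro a ha
    refine hT2 x hx a ?_
    rw [e1] at ha
    rw [e2]
    unfold kap at ha
    omega
  show (levB V S i₀ z T && (leneq y (nz z) && (ld z).all fun x =>
    markB T (kapU (nz z) (look V S (nz z) T).2) (wx y x))) = true ↔ _
  rw [Bool.and_eq_true, Bool.and_eq_true, levB_iff hV i₀ hT1, leneq_iff, List.all_eq_true]
  constructor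
  · rintro ⟨⟨i, hi, hinst⟩, hlen, hall⟩
    refine ⟨i, hi, hinst, ?_, fun x hx => (hmark i hinst x hx).1 (hall x hx)⟩
    rw [hlen, nz_eq hinst, un_length]
  · rintro ⟨i, hi, hinst, hlen, hall⟩
    refine ⟨⟨i, hi, hinst⟩, ?_, fun x hx => (hmark i hinst x hx).2 (hall x hx)⟩
    rw [hlen, nz_eq hinst, un_length]

open Classical in
theorem np_side {V : Vp} {S : ℕ} (hV : Big V S) (i₀ : ℕ) (A R : Oracle) :
    (fun z => decide (Lng V S i₀ A R z)) ∈ NPo (join A R) := by
  obtain ⟨M, hM⟩ := ask qY (dY V S i₀) qY_FP (dY_FP V S i₀)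
  refine ⟨Polynomial.X, M, fun z => ?_⟩
  rw [decide_eq_true_iff]
  unfold Accepts
  constructor
  · rintro ⟨i, hi, hinst, y, hy, hall⟩
    refine ⟨y, ?_, ?_⟩
    · rw [Polynomial.eval_X]
      obtain ⟨h1, h2, -, h4⟩ := hinst
      have h5 : 0 < (ld z).length := by
        rw [h2]
        unfold jj
        positivity
      obtain ⟨x, hx⟩ := List.exists_mem_of_length_pos h5
      have h6 := length_le_lc hx
      rw [h1, h4 x hx] at h6
      rw [hy]
      exact h6
    · rw [hM, dY_iff hV]
      exact ⟨i, hi, hinst, hy, hall⟩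
  · rintro ⟨y, -, h⟩
    rw [hM, dY_iff hV] at h
    obtain ⟨i, hi, hinst, hy, hall⟩ := h
    exact ⟨i, hi, hinst, y, hy, hall⟩

end Pool.Agent.ROA
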