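import Mathlib
import Pool.Agent.RO.CNo
import Pool.Agent.ROA.CYes

set_option autoImplicit false

/-!
# The new language is in coNP (as in `Pool.Agent.RO`, with the oracle `join A R`)
-/

namespace Pool.Agent.ROA

open N68a2faeb N793a5b8e N487b59b3 Pool.Agent.Helper22
open Pool.Agent.Helper20.Cons (join Po cRun)
open Pool.Agent.RO hiding acc Fail Inv cnt Lng markB satB failB lstep look levB qY dY qN crtB dN markB_iff satB_iff accB_iff failB_iff cnt_le_i look_eq look_lt look_of_inst levB_iff level_unique markB_FP satB_FP failB_FP lstep_FP look_FP levB_FP qY_FP dY_FP np_side crtB_iff qN_FP dN_FP conp_side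



private theorem pow_bounds {U k : ℕ} (h : 2 * 4 ^ k ≤ U) : 4 ^ k ≤ U + 1 ∧ 8 ^ k ≤ U * U + 1 := by
  have h1 : 8 ^ k ≤ 4 ^ k * 4 ^ k := by
    rw [← mul_pow]
    exact Nat.pow_le_pow_left (by norm_num) k
  have h2 : 4 ^ k * 4 ^ k ≤ U * U := Nat.mul_le_mul (by omega) (by omega)
  constructor <;> omega

theorem crtB_iff {T : List (List Bool)} {R : Oracle} {s l u : List Bool} {E F : List (List Bool)}
    (hu : IsInst s.length l.length u)
    (hT : ∀ e ∈ E ++ F, ∀ a < s.length, wmem T (true :: (e ++ un a)) = R (e ++ un a)) :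
    crtB T s l u E F = true ↔ Crt R s.length l.length u E F := by
  have hU : 2 * 4 ^ (l.length + 3) ≤ u.length := by
    have h1 := length_ld_le hu.1
    rw [hu.2.1, jj] at h1
    exact h1
  obtain ⟨h4, h8⟩ := pow_bounds hU
  have hkap : kap s.length l.length ≤ s.length := Nat.sub_le _ _
  have hmk : ∀ e ∈ E ++ F, (markB T (kapU s l) e = true ↔ Mark R (kap s.length l.length) e) := by
    intro e he
    rw [← kapU_length]
    refine markB_iff fun a ha => hT e he a ?_
    rw [kapU_length] at ha
    omega
  have hlen : leneq (un E.length ++ powU (un 4) l u) (powU (un 8) l (un (u.length * u.length))) =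
      true ↔ E.length + dd l.length = mu l.length := by
    rw [leneq_iff, powU_eq, powU_eq, List.length_append, un_length, un_length, un_length,
      un_length, un_length, un_length, min_eq_left h4, min_eq_left h8, dd, mu]
  rw [crtB, Bool.and_eq_true, Bool.and_eq_true, Bool.and_eq_true, Bool.and_eq_true, nodupB_iff,
    hlen, List.all_eq_true, List.all_eq_true, List.all_eq_true, Crt]
  have e1 : (∀ x ∈ E, (leneq x s && markB T (kapU s l) x) = true) ↔
      ∀ e ∈ E, e.length = s.length ∧ Mark R (kap s.length l.length) e := by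
    refine forall₂_congr fun e he => ?_
    rw [Bool.and_eq_true, leneq_iff, hmk e (List.mem_append_left _ he)]
  have e2 : (∀ x ∈ F, (!markB T (kapU s l) x) = true) ↔
      ∀ f ∈ F, ¬ Mark R (kap s.length l.length) f := by
    refine forall₂_congr fun f hf => ?_
    rw [← hmk f (List.mem_append_right _ hf)]
    simp
  have e3 : (∀ x ∈ E, ((ld u).all fun y => (ld u).any fun x' => wmem F (wx (wx x y) x')) = true) ↔
      ∀ e ∈ E, ∀ x ∈ ld u, ∃ x' ∈ ld u, wx (wx e x) x' ∈ F := by
    refine forall₂_congr fun e he => ?_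
    rw [List.all_eq_true]
    refine forall₂_congr fun x hx => ?_
    rw [List.any_eq_true]
    simp only [wmem_iff]
  rw [e1, e2, e3]
  tauto



theorem qN_FP : FP qN := by
  have h0 : FP fun p : List Bool × List Bool => true :: (p.1 ++ p.2) :=
    (FP.const true).cons (by fun_prop)
  have h1 : FP fun p : List Bool × List (List Bool) => p.2.map fun t => true :: (p.1 ++ t) :=
    FP.map_ctx h0
  have h2 : FP fun p : List Bool × List Bool => (uns p.1).map fun t => true :: (p.2 ++ t) :=
    h1.comp (FP.snd.pair (FP.uns FP.fst))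
  have h3 : FP fun p : List Bool × List (List Bool) =>
      p.2.flatMap fun e => (uns p.1).map fun t => true :: (e ++ t) := FP.flatMap_ctx h2
  have h4 : FP fun a : List Bool × List Bool => nz a.1 := nz_FP.comp FP.fst
  have h5 : FP fun a : List Bool × List Bool => ld (cf a.2) ++ ld (cs a.2) := by fun_prop
  have h6 : FP fun a : List Bool × List Bool =>
      (ld (cf a.2) ++ ld (cs a.2)).flatMap fun e => (uns (nz a.1)).map fun t => true :: (e ++ t) :=
    h3.comp (h4.pair h5)
  have h7 : FP fun a : List Bool × List Bool => strs (nz a.1) := FP.strs h4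
  exact FP.append h7 h6

private theorem crtB_FP {α : Type} [N487b59b3 α] {T E F : α → List (List Bool)}
    {s l u : α → List Bool} (hT : FP T) (hs : FP s) (hl : FP l) (hu : FP u) (hE : FP E)
    (hF : FP F) : FP fun a => crtB (T a) (s a) (l a) (u a) (E a) (F a) := by
  have h1 : FP fun a => nodupB (E a) := FP.nodupB hE
  have h2 : FP fun a => powU (un 4) (l a) (u a) :=
    powU_FP.comp ((FP.const (un 4)).pair (hl.pair hu))
  have h3 : FP fun a => un ((u a).length * (u a).length) := by
    have := FP.un_poly hu (Polynomial.X * Polynomial.X)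
    simpa using this
  have h4 : FP fun a => powU (un 8) (l a) (un ((u a).length * (u a).length)) :=
    powU_FP.comp ((FP.const (un 8)).pair (hl.pair h3))
  have h5 : FP fun a => leneq (un (E a).length ++ powU (un 4) (l a) (u a))
      (powU (un 8) (l a) (un ((u a).length * (u a).length))) :=
    FP.leneq (FP.append (FP.un_length hE) h2) h4
  have hk : FP fun a => kapU (s a) (l a) := kapU_FP.comp (hs.pair hl)
  have h6 : FP fun p : (List (List Bool) × (List Bool × List Bool)) × List Bool =>
      markB p.1.1 p.1.2.1 p.2 :=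
    markB_FP.comp ((FP.fst.comp FP.fst).pair ((FP.fst.comp (FP.snd.comp FP.fst)).pair FP.snd))
  have h7 : FP fun p : (List (List Bool) × (List Bool × List Bool)) × List Bool =>
      leneq p.2 p.1.2.2 && markB p.1.1 p.1.2.1 p.2 :=
    (FP.leneq FP.snd (FP.snd.comp (FP.snd.comp FP.fst))).and h6
  have hctx : FP fun a => (T a, (kapU (s a) (l a), s a)) := hT.pair (hk.pair hs)
  have h8 : FP fun a => (E a).all fun e => leneq e (s a) && markB (T a) (kapU (s a) (l a)) e :=
    (FP.all_ctx h7).comp (hctx.pair hE)
  have h9 : FP fun a => (F a).all fun f => !markB (T a) (kapU (s a) (l a)) f :=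
    (FP.all_ctx h6.not).comp (hctx.pair hF)
  have g1 : FP fun p : ((List (List Bool) × List Bool) × List Bool) × List Bool =>
      wmem p.1.1.1 (wx (wx p.1.1.2 p.1.2) p.2) :=
    FP.wmem (FP.fst.comp (FP.fst.comp FP.fst))
      (FP.wx (FP.wx (FP.snd.comp (FP.fst.comp FP.fst)) (FP.snd.comp FP.fst)) FP.snd)
  have g2 : FP fun p : ((List (List Bool) × List Bool) × List Bool) × List (List Bool) =>
      p.2.any fun x' => wmem p.1.1.1 (wx (wx p.1.1.2 p.1.2) x') := FP.any_ctx g1
  have g3 : FP fun p : ((List (List Bool) × List (List Bool)) × List Bool) × List Bool =>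
      p.1.1.2.any fun x' => wmem p.1.1.1 (wx (wx p.1.2 p.2) x') :=
    g2.comp ((((FP.fst.comp (FP.fst.comp FP.fst)).pair (FP.snd.comp FP.fst)).pair FP.snd).pair
      (FP.snd.comp (FP.fst.comp FP.fst)))
  have g4 : FP fun p : ((List (List Bool) × List (List Bool)) × List Bool) × List (List Bool) =>
      p.2.all fun x => p.1.1.2.any fun x' => wmem p.1.1.1 (wx (wx p.1.2 x) x') := FP.all_ctx g3
  have g5 : FP fun p : (List (List Bool) × List (List Bool)) × List Bool =>
      p.1.2.all fun x => p.1.2.any fun x' => wmem p.1.1 (wx (wx p.2 x) x') :=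
    g4.comp (FP.id.pair (FP.snd.comp FP.fst))
  have g6 : FP fun p : (List (List Bool) × List (List Bool)) × List (List Bool) =>
      p.2.all fun e => p.1.2.all fun x => p.1.2.any fun x' => wmem p.1.1 (wx (wx e x) x') :=
    FP.all_ctx g5
  have g7 : FP fun a => (E a).all fun e => (ld (u a)).all fun x =>
      (ld (u a)).any fun x' => wmem (F a) (wx (wx e x) x') :=
    g6.comp ((hF.pair (FP.ld hu)).pair hE)
  exact ((h1.and h5).and (h8.and h9)).and g7

theorem dN_FP (V : Vp) (S i₀ : ℕ) : FP (dN V S i₀) := by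
  have hz : FP fun c : (List Bool × List Bool) × List (List Bool) => c.1.1 :=
    FP.fst.comp FP.fst
  have hw : FP fun c : (List Bool × List Bool) × List (List Bool) => c.1.2 :=
    FP.snd.comp FP.fst
  have hT : FP fun c : (List Bool × List Bool) × List (List Bool) => c.2 := FP.snd
  have hn : FP fun c : (List Bool × List Bool) × List (List Bool) => nz c.1.1 := nz_FP.comp hz
  have hf : FP fun c : (List Bool × List Bool) × List (List Bool) => (nz c.1.1, c.2) :=
    hn.pair hT
  have hl0 := (look_FP V S).comp hf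
  dsimp only at hl0
  have hl : FP fun c : (List Bool × List Bool) × List (List Bool) =>
      (look V S (nz c.1.1) c.2).2 := hl0.snd'
  have hf' : FP fun c : (List Bool × List Bool) × List (List Bool) => (c.1.1, c.2) :=
    hz.pair hT
  have h1 := (levB_FP V S i₀).comp hf'
  dsimp only at h1
  have h2 : FP fun c : (List Bool × List Bool) × List (List Bool) =>
      crtB c.2 (nz c.1.1) (look V S (nz c.1.1) c.2).2 c.1.1 (ld (cf c.1.2)) (ld (cs c.1.2)) :=
    crtB_FP hT hn hl hz (FP.ld (FP.cf hw)) (FP.ld (FP.cs hw))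
  have h3 : dN V S i₀ = fun c : (List Bool × List Bool) × List (List Bool) =>
      !levB V S i₀ c.1.1 c.2 ||
        crtB c.2 (nz c.1.1) (look V S (nz c.1.1) c.2).2 c.1.1 (ld (cf c.1.2)) (ld (cs c.1.2)) := by
    funext c
    rw [dN]
  rw [h3]
  exact FP.or (FP.not h1) h2

open Classical in
theorem conp_side {V : Vp} {S : ℕ} (hV : Big V S) (i₀ : ℕ) (A R : Oracle)
    (hw : ∀ i, i₀ ≤ i → Win R (lev S i) (cnt V S A R i)) :
    (fun z => decide (Lng V S i₀ A R z)) ∈ coNPo (join A R) := by
  obtain ⟨M, hM⟩ := ask qN (dN V S i₀) qN_FP (dN_FP V S i₀)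
  refine ⟨3 * Polynomial.X ^ 3 + 1, M, fun z => ?_⟩
  rw [compl_true, decide_eq_true_eq]
  have hT : ∀ w : List Bool, ∀ v ∈ strs (nz z),
      wmem ((qN (z, w)).filter fun q => join A R q) v = join A R v := fun w v hv =>
    wmem_filter (List.mem_append_left _ hv)
  have hT' : ∀ w : List Bool, ∀ e ∈ ld (cf w) ++ ld (cs w), ∀ a < (nz z).length,
      wmem ((qN (z, w)).filter fun q => join A R q) (true :: (e ++ un a)) = R (e ++ un a) :=
    fun w e he a ha => wmem_filter (R := join A R) (q := true :: (e ++ un a))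
      (List.mem_append_right _ (List.mem_flatMap.2
      ⟨e, he, List.mem_map.2 ⟨un a, mem_uns.2 ⟨a, ha, rfl⟩, rfl⟩⟩))
  have heval : ∀ n : ℕ, (3 * Polynomial.X ^ 3 + 1 : Polynomial ℕ).eval n = 3 * n ^ 3 + 1 := by
    intro n
    simp
  by_cases hz : ∃ i, i₀ ≤ i ∧ IsInst (lev S i) (cnt V S A R i) z
  · obtain ⟨i, hi, hinst⟩ := hz
    have hnz : nz z = un (lev S i) := nz_eq hinst
    have hd : ∀ w : List Bool, (M.run (join A R) (z, w) = true ↔
        Crt R (lev S i) (cnt V S A R i) z (ld (cf w)) (ld (cs w))) := by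
      intro w
      have h1 : levB V S i₀ z ((qN (z, w)).filter fun q => join A R q) = true :=
        (levB_iff hV i₀ (hT w)).2 ⟨i, hi, hinst⟩
      have h2 := look_of_inst hV (hT w) hinst
      have h3 := crtB_iff (T := (qN (z, w)).filter fun q => join A R q) (R := R)
        (s := un (lev S i)) (l := un (cnt V S A R i)) (u := z) (E := ld (cf w)) (F := ld (cs w))
        (by rw [un_length, un_length]; exact hinst)
        (by rw [← hnz]; exact hT' w)
      rw [un_length, un_length] at h3
      rw [hM, ← h3]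
      show (!levB V S i₀ z ((qN (z, w)).filter fun q => join A R q) ||
        crtB ((qN (z, w)).filter fun q => join A R q) (nz z)
          (look V S (nz z) ((qN (z, w)).filter fun q => join A R q)).2 z (ld (cf w)) (ld (cs w))) = true
          ↔ _
      rw [h1, h2, hnz]
      simp
    constructor
    · intro hL
      have hS : ¬ Sat R (lev S i) (cnt V S A R i) z := fun h => hL ⟨i, hi, hinst, h⟩
      obtain ⟨E, F, hc, hF, hFl⟩ := exists_crt hinst (hw i hi) hS
      refine ⟨cd (lc E) (lc F), ?_, ?_⟩
      · rw [heval]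
        exact crt_length hinst hc hF hFl
      · rw [hd, cf_cd, cs_cd, ld_lc, ld_lc]
        exact hc
    · rintro ⟨w, -, hr⟩ ⟨i', hi', hinst', hsat⟩
      have hii : i' = i := level_unique hinst' hinst
      subst hii
      exact crt_sound hinst (hw i' hi) ((hd w).1 hr) hsat
  · have h1 : ¬ Lng V S i₀ A R z := fun ⟨i, hi, h, _⟩ => hz ⟨i, hi, h⟩
    refine iff_of_true h1 ⟨[], by simp, ?_⟩
    rw [hM]
    have h2 : levB V S i₀ z ((qN (z, ([] : List Bool))).filter fun q => join A R q) = false := by
      by_contra h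
      rw [Bool.not_eq_false] at h
      exact hz ((levB_iff hV i₀ (hT [])).1 h)
    show (!levB V S i₀ z ((qN (z, [])).filter fun q => join A R q) || _) = true
    rw [h2]
    rfl

end Pool.Agent.ROA
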