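import Mathlib
import Pool.Agent.RO.Final
import Pool.Agent.ROA.AE
import Pool.Agent.ROA.CNo

set_option autoImplicit false

/-!
# NP ∩ coNP relative to a random oracle and any other oracle: assembly
-/

namespace Pool.Agent.ROA

open MeasureTheory Pool.Agent.Helper22 N487b59b3 N68a2faeb N793a5b8e
open Pool.Agent.Helper20.Cons (join Po cRun)
open Pool.Agent.RO (Vp pads pad IsInst Sat lev Big Win coin TuringRel KK KK_mem KK_univ
  exists_number exists_big lev_strictMono turing_of_Po)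

theorem lng_iff {V : Vp} {S i₀ i : ℕ} {A R : Oracle} {u : List Bool} (hi : i₀ ≤ i)
    (h : IsInst (lev S i) (cnt V S A R i) u) :
    Lng V S i₀ A R u ↔ Sat R (lev S i) (cnt V S A R i) u := by
  constructor
  · rintro ⟨i', _, h1, h2⟩
    have h3 : i' = i := (lev_strictMono S).injective (RO.inst_level (V := V) (S := S) h1 h)
    subst h3
    exact h2
  · exact fun h1 => ⟨i, hi, h, h1⟩

/-- the statement for one oracle, from the almost sure statements for all pairs of verifiers -/
theorem no_complete {S : Vp → ℕ} (hS : ∀ V, Big V (S V)) {A R : Oracle}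
    (hR : ∀ V : Vp, (∀ l, ∃ i, cnt V (S V) A R i = l ∧ Fail V A R (lev (S V) i) l) ∧
      ((∀ i, ¬ Inv V A R (lev (S V) i) (cnt V (S V) A R i)) →
        ∃ i₀, ∀ i, i₀ ≤ i → Win R (lev (S V) i) (cnt V (S V) A R i))) :
    ¬ ∃ C ∈ NPo (join A R) ∩ coNPo (join A R),
      ∀ B ∈ NPo (join A R) ∩ coNPo (join A R), TuringRel (join A R) B C := by
  classical
  rintro ⟨C, hC, hcomp⟩
  obtain ⟨⟨p₁, M₁, h₁⟩, ⟨p₂, M₂, h₂⟩⟩ := KK_mem hC
  have h₂' : ∀ x, (KK (join A R) C x = false) ↔ Accepts M₂ p₂ (join A R) x := by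
    intro x
    rw [← h₂ x]
    simp
  let V : Vp := fun b => if b then (M₁, p₁) else (M₂, p₂)
  have hV1 : ∀ l u, acc V true A R l u ↔ KK (join A R) C (pads l u) = true :=
    fun l u => (h₁ _).symm
  have hV2 : ∀ l u, acc V false A R l u ↔ KK (join A R) C (pads l u) = false :=
    fun l u => (h₂' _).symm
  obtain ⟨hfail, hwin⟩ := hR V
  obtain ⟨i₀, hi₀⟩ := hwin (by
    rintro i ⟨u, _, hu⟩
    rw [hV1, hV2] at hu
    cases h : KK (join A R) C (pads (cnt V (S V) A R i) u) <;> simp [h] at hu)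
  have hmem : (fun z => decide (Lng V (S V) i₀ A R z)) ∈ NPo (join A R) ∩ coNPo (join A R) :=
    ⟨np_side (hS V) i₀ A R, conp_side (hS V) i₀ A R hi₀⟩
  obtain ⟨j, e, hje⟩ := KK_univ (hcomp _ hmem)
  obtain ⟨l, hl, hj, he⟩ := exists_number j e i₀
  obtain ⟨i, hi, u, hu, hf⟩ := hfail l
  have hi' : i₀ ≤ i := by
    have := cnt_le_i V (S V) A R i
    omega
  have hu' : IsInst (lev (S V) i) (cnt V (S V) A R i) u := by rw [hi]; exact hu
  have h5 := hje u
  have h6 : pad j e u = pads l u := by rw [pads, hj, he]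
  rw [h6] at h5
  have h7 := lng_iff (V := V) hi' hu'
  rw [hi] at h7
  rw [hV1, hV2, ← h5, ← h7] at hf
  simp at hf

/-- For every oracle `A` and almost every oracle `R`, NP ∩ coNP relative to `join A R` has no
complete language, not even under Turing reductions with the oracle `join A R`; in particular it
differs from P relative to `join A R`. -/
theorem random_join (A : Oracle) : ∀ᵐ R ∂coin,
    (¬ ∃ C ∈ NPo (join A R) ∩ coNPo (join A R),
      ∀ B ∈ NPo (join A R) ∩ coNPo (join A R), TuringRel (join A R) B C) ∧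
      Po (join A R) ≠ NPo (join A R) ∩ coNPo (join A R) := by
  choose S hS using exists_big
  have h : ∀ᵐ R ∂coin, ∀ V : Vp,
      (∀ l, ∃ i, cnt V (S V) A R i = l ∧ Fail V A R (lev (S V) i) l) ∧
      ((∀ i, ¬ Inv V A R (lev (S V) i) (cnt V (S V) A R i)) →
        ∃ i₀, ∀ i, i₀ ≤ i → Win R (lev (S V) i) (cnt V (S V) A R i)) :=
    ae_all_iff.2 fun V => ae_main (hS V) A
  filter_upwards [h] with R hR
  have h1 := no_complete hS hR
  refine ⟨h1, fun h2 => h1 ?_⟩
  have h3 : (fun _ => false : DecisionProblem) ∈ Po (join A R) :=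
    ⟨⟨fun _ => [], fun _ => [], fun _ => false, (isPolyTime_iff _).2 (FP.const _),
      (isPolyTime_iff _).2 (FP.const _), (isPolyTime_iff _).2 (FP.const _)⟩, fun _ => rfl⟩
  exact ⟨fun _ => false, h2 ▸ h3, fun B hB => turing_of_Po (h2 ▸ hB)⟩

end Pool.Agent.ROA
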